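import Pool.Agent.MWV.Stmts

/-!
# World A, run fill with heavy ends: row MRK
-/

set_option autoImplicit false

namespace Pool.Agent.MWV.H11

open Pool.Agent.Helper14_MV Pool.Agent.Helper2_MV

theorem mem_pl {P : List ℕ} {i : ℕ} (h : i ∈ P) : 3 * i + 1 ∈ pl P := by
  unfold pl
  rw [List.mem_flatMap]
  exact ⟨i, h, by simp⟩

theorem mem_pr {Q : List ℕ} {i : ℕ} (h : i ∈ Q) : 3 * i + 1 ∈ pr Q := by
  unfold pr
  rw [List.mem_flatMap]
  exact ⟨i, h, by simp⟩

/-- the renaming of `PJM`, last part -/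
def jo (j : ℕ) : ℕ → Option ℕ := fun i => if i = j then some (j - 1) else if i = j + 1 then some j
  else none

/-- only the letter `c` is kept -/
def hc (c a : ℕ) : List ℕ := if a = c then [c] else []

theorem fj_other {j a : ℕ} (h2 : a % 3 ≠ 2) (h1 : a ≠ 3 * j + 1) (h3 : a ≠ 3 * (j + 1) + 1)
    (hcc : a ≠ 3 * j + 3) : fj (jo j) (hc (3 * j + 3)) a = [] := by
  unfold fj
  by_cases h0 : a % 3 = 0
  · rw [if_pos h0]
    unfold hc
    rw [if_neg hcc]
  · have h1' : a % 3 = 1 := by omega
    rw [if_neg h0, if_pos h1']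
    unfold jo
    rw [if_neg (by omega), if_neg (by omega)]
    rfl

theorem fj_c (j : ℕ) : fj (jo j) (hc (3 * j + 3)) (3 * j + 3) = [3 * j + 3] := by
  unfold fj
  rw [if_pos (by omega)]
  unfold hc
  rw [if_pos rfl]

theorem fj_j (j : ℕ) : fj (jo j) (hc (3 * j + 3)) (3 * j + 1) = [3 * (j - 1) + 1] := by
  unfold fj
  rw [if_neg (by omega), if_pos (by omega)]
  unfold jo
  rw [if_pos (by omega)]
  rfl

theorem fj_j1 (j : ℕ) : fj (jo j) (hc (3 * j + 3)) (3 * (j + 1) + 1) = [3 * j + 1] := by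
  unfold fj
  rw [if_neg (by omega), if_pos (by omega)]
  unfold jo
  rw [if_neg (by omega), if_pos (by omega)]
  rfl

theorem fm_c (j : ℕ) : ∀ L : List ℕ, (∀ a ∈ L, a % 3 ≠ 2) → 3 * j + 1 ∉ L → 3 * (j + 1) + 1 ∉ L →
    L.flatMap (fj (jo j) (hc (3 * j + 3))) = X (L.count (3 * j + 3)) (3 * j + 3)
  | [], _, _, _ => rfl
  | a :: L, h2, h1, h3 => by
    have ih := fm_c j L (fun b hb => h2 b (List.mem_cons_of_mem _ hb))
      (fun hb => h1 (List.mem_cons_of_mem _ hb)) (fun hb => h3 (List.mem_cons_of_mem _ hb))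
    rw [List.flatMap_cons, ih]
    by_cases hac : a = 3 * j + 3
    · subst hac
      rw [fj_c, List.count_cons_self]
      change (3 * j + 3) :: List.replicate _ _ = List.replicate _ _
      rw [List.replicate_succ]
    · rw [fj_other (h2 a (List.mem_cons_self ..)) (fun e => h1 (e ▸ List.mem_cons_self ..))
        (fun e => h3 (e ▸ List.mem_cons_self ..)) hac, List.nil_append,
        List.count_cons_of_ne (fun e => hac e)]

theorem fm_filter (j : ℕ) : ∀ L : List ℕ, (∀ a ∈ L, a % 3 ≠ 2) →
    L.flatMap (fj (jo j) (hc (3 * j + 3))) = (L.filter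
      (fun c => decide (c = 3 * j + 1 ∨ c = 3 * j + 3 ∨ c = 3 * (j + 1) + 1))).flatMap
        (fj (jo j) (hc (3 * j + 3)))
  | [], _ => rfl
  | a :: L, h2 => by
    have ih := fm_filter j L (fun b hb => h2 b (List.mem_cons_of_mem _ hb))
    by_cases ha : a = 3 * j + 1 ∨ a = 3 * j + 3 ∨ a = 3 * (j + 1) + 1
    · rw [List.filter_cons_of_pos (by simpa using ha), List.flatMap_cons, List.flatMap_cons, ih]
    · rw [List.filter_cons_of_neg (by simpa using ha), List.flatMap_cons, ih,
        fj_other (h2 a (List.mem_cons_self ..)) (fun e => ha (Or.inl e))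
          (fun e => ha (Or.inr (Or.inr e))) (fun e => ha (Or.inr (Or.inl e))), List.nil_append]

/-- at most `M` letters -/
theorem len_le {l : List ℕ} {s : Finset ℕ} (h : l.Nodup) (hs : ∀ a ∈ l, a ∈ s) :
    l.length ≤ s.card := by
  rw [← List.toFinset_card_of_nodup h]
  exact Finset.card_le_card (fun a ha => hs a (List.mem_toFinset.1 ha))

theorem mrk (hsbw : SbwStmt) (hppm : PpmStmt) (hpjm : PjmStmt) (hlbk : LbkStmt) (hdcb : DcbStmt)
    (hord : OrdStmt) (hmkp : MkpStmt) : MrkStmt := by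
  intro N S P Q g k d j m1 m2 m3 H hd hj1 hjk hgj hS
  have hN := H.wo.pos
  obtain ⟨pm, pi, p0, pk2⟩ := hppm k P Q H.kp H.pm
  obtain ⟨L1, eL, ok, mem⟩ := hdcb N S P Q g k d _ H hd hS
  have eL' : m1 ++ (3 * j + 3) :: (m2 ++ (3 * j + 3) :: m3) = L1 := by
    have h1 := List.append_cancel_left eL
    have h2 := List.cons.inj h1
    exact List.append_cancel_right h2.2
  subst eL'
  obtain ⟨okb, -, -, -, hf3⟩ := hlbk N g k d P Q hN H.kp hd H.pm
  have hlb := hf3 j hj1 hjk hgj
  -- letters
  have sub2 : ∀ a ∈ m2, a ∈ m1 ++ (3 * j + 3) :: (m2 ++ (3 * j + 3) :: m3) := by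
    intro a ha; simp [ha]
  have lightof : ∀ a ∈ m1 ++ (3 * j + 3) :: (m2 ++ (3 * j + 3) :: m3), a % 3 ≠ 0 →
      ∃ e, e ≤ k + 2 ∧ e ∈ PP k P ++ PP k Q ∧ a = 3 * e + 1 := by
    intro a ha h0
    rcases ok.mem a ha with h | ⟨e, he, rfl⟩
    · exact absurd h h0
    · have := (pm.mem_iff).1 he
      rw [List.mem_range] at this
      exact ⟨e, by omega, he, rfl⟩
  have c1 : ∀ e, e ≤ k + 2 →
      (m1 ++ (3 * j + 3) :: (m2 ++ (3 * j + 3) :: m3)).count (3 * e + 1) = 1 := by
    intro e he
    exact ok.one e ((pm.mem_iff).2 (List.mem_range.2 (by omega)))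
  have c1' : ∀ e, e ≤ k + 2 → m1.count (3 * e + 1) + m2.count (3 * e + 1) +
      m3.count (3 * e + 1) = 1 := by
    intro e he
    have h := c1 e he
    rw [List.count_append, List.count_cons_of_ne (by omega), List.count_append,
      List.count_cons_of_ne (by omega)] at h
    omega
  -- contexts
  have ctx : ∀ e, e ∈ PP k P ++ PP k Q → 3 * e + 1 ∈ pl (PP k P) ++ 2 :: m1 ∨
      3 * e + 1 ∈ m3 ++ 5 :: pr (PP k Q) := by
    intro e he
    rcases List.mem_append.1 he with h | h
    · left
      exact List.mem_append_left _ (mem_pl h)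
    · right
      exact List.mem_append_right _ (List.mem_cons_of_mem _ (mem_pr h))
  have inpq : ∀ e, e ≤ k + 2 → e ∈ PP k P ++ PP k Q := fun e he =>
    (pm.mem_iff).2 (List.mem_range.2 (by omega))
  -- markers
  have hll : ∀ e, e ≤ j → 3 * e + 1 ∈ m2 → ll N S (PP k Q) e := by
    intro e hej he
    obtain ⟨a, b, rfl⟩ := List.append_of_mem he
    refine (hmkp N S P Q g k d e j (m1 ++ (3 * j + 3) :: a) (b ++ (3 * j + 3) :: m3) H hd
      (by omega) hj1 hjk hgj ?_).1 hej (by simp)
    simpa [List.append_assoc] using hS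
  have hrr : ∀ e, j < e → e ≤ k + 2 → 3 * e + 1 ∈ m2 → rr N S (PP k Q) e := by
    intro e hej hek he
    obtain ⟨a, b, rfl⟩ := List.append_of_mem he
    refine (hmkp N S P Q g k d e j (m1 ++ (3 * j + 3) :: a) (b ++ (3 * j + 3) :: m3) H hd
      hek hj1 hjk hgj ?_).2 hej (by simp)
    simpa [List.append_assoc] using hS
  have rpo : ∀ ν : List ℕ, (∀ a ∈ ν, a ∈ m2) → (∀ e, 3 * e + 1 ∈ ν → j < e) →
      Rp N S (pl (PP k P) ++ 2 :: m1) (m3 ++ 5 :: pr (PP k Q)) ν := by
    intro ν hν hidx a ha h0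
    obtain ⟨e, hek, he, rfl⟩ := lightof a (sub2 a (hν a ha)) h0
    have h := hrr e (hidx e ha) hek (hν _ ha)
    by_cases hq : e ∈ PP k Q
    · exact Or.inl ⟨List.mem_append_right _ (List.mem_cons_of_mem _ (mem_pr hq)), h.1 hq⟩
    · have hp : e ∈ PP k P := by
        rcases List.mem_append.1 he with h' | h'
        · exact h'
        · exact absurd h' hq
      exact Or.inr ⟨List.mem_append_left _ (mem_pl hp), h.2 hq⟩
  have lqo : ∀ ν : List ℕ, (∀ a ∈ ν, a ∈ m2) → (∀ e, 3 * e + 1 ∈ ν → e ≤ j) →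
      Lq N S (pl (PP k P) ++ 2 :: m1) (m3 ++ 5 :: pr (PP k Q)) ν := by
    intro ν hν hidx a ha h0
    obtain ⟨e, hek, he, rfl⟩ := lightof a (sub2 a (hν a ha)) h0
    have h := hll e (hidx e ha) (hν _ ha)
    by_cases hq : e ∈ PP k Q
    · exact Or.inl ⟨List.mem_append_right _ (List.mem_cons_of_mem _ (mem_pr hq)), h.1 hq⟩
    · have hp : e ∈ PP k P := by
        rcases List.mem_append.1 he with h' | h'
        · exact h'
        · exact absurd h' hq
      exact Or.inr ⟨List.mem_append_left _ (mem_pl hp), h.2 hq⟩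
  have nd2 : (lgt m2).Nodup := by
    rw [List.nodup_iff_count_le_one]
    intro a
    by_cases ha : a ∈ lgt m2
    · have ha' := List.mem_filter.1 ha
      obtain ⟨e, hek, he, rfl⟩ := lightof a (sub2 a ha'.1) (by simpa using ha'.2)
      have h1 := c1' e hek
      have h2 : (lgt m2).count (3 * e + 1) ≤ m2.count (3 * e + 1) :=
        List.Sublist.count_le _ List.filter_sublist
      omega
    · rw [List.count_eq_zero_of_not_mem ha]
      omega
  have lidx : ∀ a ∈ lgt m2, ∃ e, e ≤ k + 2 ∧ a = 3 * e + 1 ∧ 3 * e + 1 ∈ m2 := by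
    intro a ha
    have ha' := List.mem_filter.1 ha
    obtain ⟨e, hek, he, rfl⟩ := lightof a (sub2 a ha'.1) (by simpa using ha'.2)
    exact ⟨e, hek, rfl, ha'.1⟩
  have case1 : (lgt m2).length ≤ k →
      Gd N S k (pl (PP k P) ++ 2 :: m1) (m3 ++ 5 :: pr (PP k Q)) (3 * j + 3) m2 := by
    intro hlen
    refine Or.inl ⟨hlen, nd2, ?_⟩
    intro a ha h0
    obtain ⟨e, hek, he, rfl⟩ := lightof a (sub2 a ha) h0
    exact ctx e he
  by_cases hA : ∀ e, 3 * e + 1 ∈ m2 → j < e
  · exact Or.inr (Or.inl (rpo m2 (fun _ h => h) hA))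
  by_cases hB : ∀ e, 3 * e + 1 ∈ m2 → e ≤ j
  · exact Or.inr (Or.inr (Or.inl (lqo m2 (fun _ h => h) hB)))
  push Not at hA hB
  obtain ⟨i, hi, hij⟩ := hA
  obtain ⟨i', hi', hij'⟩ := hB
  have hi'k : i' ≤ k + 2 := by
    obtain ⟨e, hek, -, he⟩ := lightof _ (sub2 _ hi') (by omega)
    omega
  have nr0 := H.fc.nr
  have nlk := H.fc.nl
  have k1 : 1 ∈ PP k Q ↔ 0 ∈ Q := (pi 0 (by omega)).1
  have kk1 : k + 1 ∈ PP k Q ↔ k ∈ Q := (pi k le_rfl).1
  -- kinds
  have kl : ∀ e, e ≤ j → 3 * e + 1 ∈ m2 → ¬ (e ∈ PP k Q ↔ k ∈ Q) := by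
    intro e hej he hk
    have h := hll e hej he
    exact nlk ⟨fun hq => h.1 (hk.2 hq), fun hq => h.2 (fun h' => hq (hk.1 h'))⟩
  have kr : ∀ e, j < e → e ≤ k + 2 → 3 * e + 1 ∈ m2 → ¬ (e ∈ PP k Q ↔ 0 ∈ Q) := by
    intro e hej hek he hk
    have h := hrr e hej hek he
    exact nr0 ⟨fun hq => h.1 (hk.2 hq), fun hq => h.2 (fun h' => hq (hk.1 h'))⟩
  by_cases h0k : 0 ∈ Q ↔ k ∈ Q
  · -- at most `k - 1` lights
    apply case1
    have hs : ∀ a ∈ lgt m2, a ∈ (Finset.Icc 2 k).image (fun e => 3 * e + 1) := by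
      intro a ha
      obtain ⟨e, hek, rfl, he⟩ := lidx a ha
      refine Finset.mem_image.2 ⟨e, Finset.mem_Icc.2 ⟨?_, ?_⟩, rfl⟩
      · by_contra hlt
        rcases (by omega : e = 0 ∨ e = 1) with rfl | rfl
        · exact kl 0 (by omega) he (p0.trans h0k)
        · exact kl 1 hj1 he (k1.trans h0k)
      · by_contra hgt
        rcases (by omega : e = k + 1 ∨ e = k + 2) with rfl | rfl
        · exact kr (k + 1) (by omega) hek he (kk1.trans h0k.symm)
        · exact kr (k + 2) (by omega) hek he (pk2.trans h0k.symm)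
    have h1 := len_le nd2 hs
    have h2 : ((Finset.Icc 2 k).image (fun e => 3 * e + 1)).card ≤ (Finset.Icc 2 k).card :=
      Finset.card_image_le
    rw [Nat.card_Icc] at h2
    omega
  -- all pairs are ordered
  have ord : ∀ e f n1 n2, e < f → f ≤ k + 2 →
      n1 ++ (3 * f + 1) :: n2 = m1 ++ (3 * j + 3) :: (m2 ++ (3 * j + 3) :: m3) →
        3 * e + 1 ∈ n1 := by
    intro e f n1 n2 hef hf en
    refine hord N S P Q g k d e f n1 n2 H hd hef hf ?_ (by rw [en]; exact hS)
    intro _
    rw [p0, pk2]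
    tauto
  have notm1 : ∀ e, e ≤ k + 2 → 3 * e + 1 ∈ m2 → 3 * e + 1 ∉ m1 := by
    intro e he h2 h1
    have h := c1' e he
    have h3 := List.count_pos_iff.2 h2
    have h4 := List.count_pos_iff.2 h1
    omega
  have notm3 : ∀ e, e ≤ k + 2 → 3 * e + 1 ∈ m2 → 3 * e + 1 ∉ m3 := by
    intro e he h2 h1
    have h := c1' e he
    have h3 := List.count_pos_iff.2 h2
    have h4 := List.count_pos_iff.2 h1
    omega
  have conv : ∀ lo e hi, lo ≤ e → e ≤ hi → hi ≤ k + 2 → 3 * lo + 1 ∈ m2 → 3 * hi + 1 ∈ m2 →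
      3 * e + 1 ∈ m2 := by
    intro lo e hi h1 h2 hk hlo hhi
    rcases Nat.eq_or_lt_of_le h1 with rfl | h1
    · exact hlo
    rcases Nat.eq_or_lt_of_le h2 with rfl | h2
    · exact hhi
    by_contra hne
    have hc := c1' e (by omega)
    rw [List.count_eq_zero_of_not_mem hne] at hc
    by_cases hm1 : 3 * e + 1 ∈ m1
    · obtain ⟨s, t, rfl⟩ := List.append_of_mem hm1
      have h3 := ord lo e s (t ++ (3 * j + 3) :: (m2 ++ (3 * j + 3) :: m3)) h1 (by omega)
        (by simp [List.append_assoc])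
      exact notm1 lo (by omega) hlo (List.mem_append_left _ h3)
    · rw [List.count_eq_zero_of_not_mem hm1] at hc
      obtain ⟨a, b, eab⟩ := List.append_of_mem hhi
      have h3 := ord e hi (m1 ++ (3 * j + 3) :: a) (b ++ (3 * j + 3) :: m3) h2 hk
        (by rw [eab]; simp [List.append_assoc])
      rcases List.mem_append.1 h3 with h4 | h4
      · exact hm1 h4
      · rcases List.mem_cons.1 h4 with h5 | h5
        · omega
        · exact hne (by rw [eab]; exact List.mem_append_left _ h5)
  by_cases hlen : (lgt m2).length ≤ k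
  · exact case1 hlen
  have exlo : ∃ lo, lo ≤ 2 ∧ 3 * lo + 1 ∈ m2 := by
    by_contra hno
    push Not at hno
    have hs : ∀ a ∈ lgt m2, a ∈ (Finset.Icc 3 (k + 2)).image (fun e => 3 * e + 1) := by
      intro a ha
      obtain ⟨e, hek, rfl, he⟩ := lidx a ha
      refine Finset.mem_image.2 ⟨e, Finset.mem_Icc.2 ⟨?_, hek⟩, rfl⟩
      by_contra hlt
      exact hno e (by omega) he
    have h1 := len_le nd2 hs
    have h2 : ((Finset.Icc 3 (k + 2)).image (fun e => 3 * e + 1)).card ≤
      (Finset.Icc 3 (k + 2)).card := Finset.card_image_le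
    rw [Nat.card_Icc] at h2
    omega
  have exhi : ∃ hi, k ≤ hi ∧ hi ≤ k + 2 ∧ 3 * hi + 1 ∈ m2 := by
    by_contra hno
    push Not at hno
    have hs : ∀ a ∈ lgt m2, a ∈ (Finset.range k).image (fun e => 3 * e + 1) := by
      intro a ha
      obtain ⟨e, hek, rfl, he⟩ := lidx a ha
      refine Finset.mem_image.2 ⟨e, Finset.mem_range.2 ?_, rfl⟩
      by_contra hlt
      exact hno e (by omega) hek he
    have h1 := len_le nd2 hs
    have h2 : ((Finset.range k).image (fun e => 3 * e + 1)).card ≤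
      (Finset.range k).card := Finset.card_image_le
    rw [Finset.card_range] at h2
    omega
  obtain ⟨lo, hlo2, hlo⟩ := exlo
  obtain ⟨hi2, hik, hik2, hhi⟩ := exhi
  have k0 : ∀ e, e ≤ j → 3 * e + 1 ∈ m2 → (e ∈ PP k Q ↔ 0 ∈ Q) := by
    intro e h1 h2
    have := kl e h1 h2
    tauto
  have kke : ∀ e, j < e → e ≤ k + 2 → 3 * e + 1 ∈ m2 → (e ∈ PP k Q ↔ k ∈ Q) := by
    intro e h1 h1' h2
    have := kr e h1 h1' h2
    tauto
  have ll0 : ll N S Q 0 := by
    have h := hll i hij hi
    have hk := k0 i hij hi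
    exact ⟨fun hq => h.1 (hk.2 hq), fun hq => h.2 (fun h' => hq (hk.1 h'))⟩
  have rrk : rr N S Q k := by
    have h := hrr i' hij' hi'k hi'
    have hk := kke i' hij' hi'k hi'
    exact ⟨fun hq => h.1 (hk.2 hq), fun hq => h.2 (fun h' => hq (hk.1 h'))⟩
  have full1 : ∀ e < j, ll N S Q e := by
    intro e he
    rcases Nat.eq_zero_or_pos e with rfl | hpos
    · exact ll0
    · have hm : 3 * (e + 1) + 1 ∈ m2 := conv lo (e + 1) i' (by omega) (by omega) hi'k hlo hi'
      have h := hll (e + 1) (by omega) hm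
      have hk := (pi e (by omega)).1
      exact ⟨fun hq => h.1 (hk.2 hq), fun hq => h.2 (fun h' => hq (hk.1 h'))⟩
  have full2 : ∀ e, j ≤ e → e ≤ k → rr N S Q e := by
    intro e he hek
    rcases Nat.eq_or_lt_of_le hek with rfl | hlt
    · exact rrk
    · have hm : 3 * (e + 1) + 1 ∈ m2 := conv i (e + 1) hi2 (by omega) (by omega) hik2 hi hhi
      have h := hrr (e + 1) (by omega) (by omega) hm
      have hk := (pi e (by omega)).1
      exact ⟨fun hq => h.1 (hk.2 hq), fun hq => h.2 (fun h' => hq (hk.1 h'))⟩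
  have njp : ¬ Jp N S P Q j := fun hj => (H.hg j hj1 hjk).1 hgj ⟨full1, full2, hj⟩
  -- splitting of `m2`
  have mj : 3 * j + 1 ∈ m2 := conv i j i' hij (by omega) hi'k hi hi'
  have mj1 : 3 * (j + 1) + 1 ∈ m2 := conv i (j + 1) i' (by omega) (by omega) hi'k hi hi'
  obtain ⟨a, ν2, eab⟩ := List.append_of_mem mj1
  have mja : 3 * j + 1 ∈ a := by
    have h3 := ord j (j + 1) (m1 ++ (3 * j + 3) :: a) (ν2 ++ (3 * j + 3) :: m3) (by omega)
      (by omega) (by rw [eab]; simp [List.append_assoc])
    rcases List.mem_append.1 h3 with h4 | h4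
    · exact absurd h4 (notm1 j (by omega) mj)
    · rcases List.mem_cons.1 h4 with h5 | h5
      · omega
      · exact h5
  obtain ⟨ν1, ρ, ea⟩ := List.append_of_mem mja
  subst ea
  have em : m2 = ν1 ++ (3 * j + 1) :: (ρ ++ (3 * (j + 1) + 1) :: ν2) := by
    rw [eab]; simp [List.append_assoc]
  have cnt : ∀ e, e ≤ k + 2 → m1.count (3 * e + 1) + ν1.count (3 * e + 1) +
      (if e = j then 1 else 0) + ρ.count (3 * e + 1) + (if e = j + 1 then 1 else 0) +
        ν2.count (3 * e + 1) + m3.count (3 * e + 1) = 1 := by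
    intro e he
    have h := c1' e he
    rw [em, List.count_append, List.count_cons, List.count_append, List.count_cons] at h
    have h1 : ((3 * j + 1 == 3 * e + 1) = true) ↔ e = j := by
      rw [beq_iff_eq]; omega
    have h2 : ((3 * (j + 1) + 1 == 3 * e + 1) = true) ↔ e = j + 1 := by
      rw [beq_iff_eq]; omega
    simp only [h1, h2] at h
    omega
  have pos1 : ∀ {e : ℕ} {l : List ℕ}, 3 * e + 1 ∈ l → 1 ≤ l.count (3 * e + 1) :=
    fun h => List.count_pos_iff.2 h
  have lek : ∀ e, 3 * e + 1 ∈ m2 → e ≤ k + 2 := by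
    intro e he
    obtain ⟨e', hek, -, he'⟩ := lightof _ (sub2 _ he) (by omega)
    omega
  -- indices in the parts
  have idx1 : ∀ e, 3 * e + 1 ∈ ν1 ++ [3 * j + 1] → e ≤ j := by
    intro e he
    rcases List.mem_append.1 he with h | h
    · have hek := lek e (by rw [em]; exact List.mem_append_left _ h)
      by_contra hgt
      have hc := cnt e hek
      have h1 := pos1 h
      by_cases e1 : e = j + 1
      · rw [if_neg (by omega), if_pos e1] at hc
        omega
      obtain ⟨s, t, rfl⟩ := List.append_of_mem h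
      have h3 := ord (j + 1) e (m1 ++ (3 * j + 3) :: s)
        (t ++ (3 * j + 1) :: (ρ ++ (3 * (j + 1) + 1) :: ν2) ++ (3 * j + 3) :: m3) (by omega) hek
        (by rw [em]; simp [List.append_assoc])
      have hc2 := cnt (j + 1) (by omega)
      rw [if_neg (by omega), if_pos rfl, List.count_append] at hc2
      rcases List.mem_append.1 h3 with h4 | h4
      · have := pos1 h4
        omega
      · rcases List.mem_cons.1 h4 with h5 | h5
        · omega
        · have := pos1 h5
          omega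
    · have := List.mem_singleton.1 h
      omega
  have idx2 : ∀ e, 3 * e + 1 ∈ (3 * (j + 1) + 1) :: ν2 → j < e := by
    intro e he
    rcases List.mem_cons.1 he with h | h
    · omega
    · have hek := lek e (by rw [em]; simp [h])
      by_contra hle
      have hc := cnt e hek
      have h1 := pos1 h
      by_cases e1 : e = j
      · rw [if_pos e1] at hc
        omega
      have h3 := ord e j (m1 ++ (3 * j + 3) :: ν1)
        (ρ ++ (3 * (j + 1) + 1) :: ν2 ++ (3 * j + 3) :: m3) (by omega) (by omega)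
        (by rw [em]; simp [List.append_assoc])
      rcases List.mem_append.1 h3 with h4 | h4
      · have := pos1 h4
        omega
      · rcases List.mem_cons.1 h4 with h5 | h5
        · omega
        · have := pos1 h5
          omega
  have idr : ∀ a ∈ ρ, a % 3 = 0 := by
    intro a ha
    by_contra h0
    obtain ⟨e, hek, -, rfl⟩ := lightof a (sub2 a (by rw [em]; simp [ha])) h0
    have hc := cnt e hek
    have h1 := pos1 ha
    by_cases e1 : e = j
    · rw [if_pos e1] at hc
      omega
    by_cases e2 : e = j + 1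
    · rw [if_pos e2] at hc
      omega
    rcases Nat.lt_or_gt_of_ne e1 with h | h
    · have h3 := ord e j (m1 ++ (3 * j + 3) :: ν1)
        (ρ ++ (3 * (j + 1) + 1) :: ν2 ++ (3 * j + 3) :: m3) h (by omega)
        (by rw [em]; simp [List.append_assoc])
      rcases List.mem_append.1 h3 with h4 | h4
      · have := pos1 h4
        omega
      · rcases List.mem_cons.1 h4 with h5 | h5
        · omega
        · have := pos1 h5
          omega
    · obtain ⟨s, t, rfl⟩ := List.append_of_mem ha
      have h3 := ord (j + 1) e (m1 ++ (3 * j + 3) :: (ν1 ++ (3 * j + 1) :: s))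
        (t ++ (3 * (j + 1) + 1) :: ν2 ++ (3 * j + 3) :: m3) (by omega) hek
        (by rw [em]; simp [List.append_assoc])
      have hc2 := cnt (j + 1) (by omega)
      rw [if_neg (by omega), if_pos rfl, List.count_append] at hc2
      rcases List.mem_append.1 h3 with h4 | h4
      · have := pos1 h4
        omega
      · rcases List.mem_cons.1 h4 with h5 | h5
        · omega
        · rcases List.mem_append.1 h5 with h6 | h6
          · have := pos1 h6
            omega
          · rcases List.mem_cons.1 h6 with h7 | h7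
            · omega
            · have := pos1 h7
              omega
  by_cases hρ : ρ.count (3 * j + 3) % N = 0
  · exfalso
    apply njp
    have hcj := cnt j (by omega)
    rw [if_pos rfl] at hcj
    have hcj1 := cnt (j + 1) (by omega)
    rw [if_neg (by omega), if_pos rfl] at hcj1
    have nomem : ∀ {l : List ℕ} {a : ℕ}, l.count a = 0 → a ∉ l := fun h => List.count_eq_zero.1 h
    have sfL : ∀ a ∈ m1 ++ (3 * j + 3) :: (m2 ++ (3 * j + 3) :: m3), a % 3 ≠ 2 := by
      intro a ha h
      obtain ⟨e, -, -, rfl⟩ := lightof a ha (by omega)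
      omega
    rw [em] at sfL
    have sfB : ∀ a ∈ Lb N g k d, a % 3 ≠ 2 := by
      intro a ha h
      rcases okb.mem a ha with h' | ⟨e, -, rfl⟩
      · omega
      · omega
    have hsub := H.wo.sub (fj (jo j) (hc (3 * j + 3))) (by
      intro h hh a ha
      unfold fj at ha
      rw [if_pos hh] at ha
      unfold hc at ha
      by_cases e : h = 3 * j + 3
      · rw [if_pos e, List.mem_singleton] at ha
        omega
      · rw [if_neg e] at ha
        simp at ha) hS
    have eb : Wb N P Q g k d = W (PP k P) (PP k Q) (Lb N g k d) := rfl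
    have hPle : ∀ e ∈ P, e ≤ k := by
      intro e he
      have := (H.pm.mem_iff).1 (List.mem_append_left Q he)
      rw [List.mem_range] at this
      omega
    have hQle : ∀ e ∈ Q, e ≤ k := by
      intro e he
      have := (H.pm.mem_iff).1 (List.mem_append_right P he)
      rw [List.mem_range] at this
      omega
    have eP : (PP k P).filterMap (jo j) = P.filter (fun e => decide (e + 1 = j ∨ e = j)) :=
      (hpjm k P H.kp hPle).2.2.2 j hj1 hjk
    have eQ : (PP k Q).filterMap (jo j) = Q.filter (fun e => decide (e + 1 = j ∨ e = j)) :=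
      (hpjm k Q H.kp hQle).2.2.2 j hj1 hjk
    rw [eb, hsbw, hsbw, eP, eQ, fm_filter j _ sfB, hlb] at hsub
    have el : [3 * j + 1, 3 * j + 3, 3 * (j + 1) + 1].flatMap (fj (jo j) (hc (3 * j + 3))) =
        [3 * (j - 1) + 1, 3 * j + 3, 3 * j + 1] := by
      rw [List.flatMap_cons, List.flatMap_cons, List.flatMap_cons, fj_j, fj_c, fj_j1]
      rfl
    have er : (m1 ++ (3 * j + 3) :: (m2 ++ (3 * j + 3) :: m3)).flatMap
        (fj (jo j) (hc (3 * j + 3))) =
        X ((m1 ++ (3 * j + 3) :: ν1).count (3 * j + 3)) (3 * j + 3) ++ (3 * (j - 1) + 1) ::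
          (X (ρ.count (3 * j + 3)) (3 * j + 3) ++ (3 * j + 1) ::
            X ((ν2 ++ (3 * j + 3) :: m3).count (3 * j + 3)) (3 * j + 3)) := by
      have e1 : m1 ++ (3 * j + 3) :: (m2 ++ (3 * j + 3) :: m3) =
          (m1 ++ (3 * j + 3) :: ν1) ++ (3 * j + 1) :: (ρ ++ (3 * (j + 1) + 1) ::
            (ν2 ++ (3 * j + 3) :: m3)) := by
        rw [em]; simp [List.append_assoc]
      rw [e1, List.flatMap_append (xs := m1 ++ (3 * j + 3) :: ν1), List.flatMap_cons (x := 3 * j + 1),
        List.flatMap_append (xs := ρ), List.flatMap_cons (x := 3 * (j + 1) + 1), fj_j, fj_j1]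
      have f1 : 3 * j + 1 ∉ m1 ++ (3 * j + 3) :: ν1 := by
        apply nomem
        rw [List.count_append, List.count_cons_of_ne (by omega)]
        omega
      have f2 : 3 * (j + 1) + 1 ∉ m1 ++ (3 * j + 3) :: ν1 := by
        apply nomem
        rw [List.count_append, List.count_cons_of_ne (by omega)]
        omega
      have f3 : 3 * j + 1 ∉ ρ := nomem (by omega)
      have f4 : 3 * (j + 1) + 1 ∉ ρ := nomem (by omega)
      have f5 : 3 * j + 1 ∉ ν2 ++ (3 * j + 3) :: m3 := by
        apply nomem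
        rw [List.count_append, List.count_cons_of_ne (by omega)]
        omega
      have f6 : 3 * (j + 1) + 1 ∉ ν2 ++ (3 * j + 3) :: m3 := by
        apply nomem
        rw [List.count_append, List.count_cons_of_ne (by omega)]
        omega
      rw [fm_c j (m1 ++ (3 * j + 3) :: ν1) (fun a ha => sfL a (by
          rcases List.mem_append.1 ha with h | h
          · exact List.mem_append_left _ h
          · rcases List.mem_cons.1 h with h | h
            · rw [h]; simp
            · simp [h])) f1 f2,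
        fm_c j ρ (fun a ha => sfL a (by simp [ha])) f3 f4,
        fm_c j (ν2 ++ (3 * j + 3) :: m3) (fun a ha => sfL a (by
          rcases List.mem_append.1 ha with h | h
          · simp [h]
          · rcases List.mem_cons.1 h with h | h
            · rw [h]; simp
            · simp [h])) f5 f6]
      rfl
    rw [el, er] at hsub
    refine ⟨_, _, _, ?_, ?_, hρ, hsub⟩
    · rw [List.count_append, List.count_cons_self]
      omega
    · rw [List.count_append, List.count_cons_self]
      omega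
  · refine Or.inr (Or.inr (Or.inr ⟨ν1, ρ, ν2, 3 * j + 1, 3 * (j + 1) + 1, em, by omega, by omega,
      idr, hρ, lqo _ ?_ idx1, rpo _ ?_ idx2⟩))
    · intro a ha
      rw [em]
      rcases List.mem_append.1 ha with h | h
      · simp [h]
      · rw [List.mem_singleton.1 h]; simp
    · intro a ha
      rw [em]
      rcases List.mem_cons.1 ha with h | h
      · rw [h]; simp
      · simp [h]

end Pool.Agent.MWV.H11
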